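import Pool.Agent.Lib.MP_6e5bed_ag_SP.Locus

set_option autoImplicit false

/-!
# The Kimura-finite locus of a family of smooth proper dg algebras

Let `R` be a commutative ring and let `A` be a smooth proper dg algebra over `R`. For the fields
`L` over `R`, the extensions of scalars `A ⊗ L` are smooth and proper over `L`. There is a subset
`E` of `Spec R` such that for all fields `L` over `R`, the noncommutative Chow motive of `A ⊗ L`
over `L` is Kimura-finite if and only if the image of `Spec L → Spec R` is in `E`, and `E` contains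
with a point `x` a nonempty open subset of the closure of `x`.
-/

namespace Pool.Agent.Results.MP_6e5bed_ag.KimuraLocus

open CategoryTheory MonoidalCategory Pool.Agent.MP_6e5bed_ag Pool.Agent.MP_6e5bed_ag_SP

universe u

theorem result : (∀ (k : Type u) [Field k], HasModel k) ∧
    ∀ (R : Type u) [CommRing R] (A : Type u) [Ring A] [Algebra R A] (X : DG R A), SmPr X →
      ∃ E : Set (PrimeSpectrum R),
      (∀ x ∈ E, ∃ f : R, f ∉ x.asIdeal ∧
        ∀ y : PrimeSpectrum R, x.asIdeal ≤ y.asIdeal → f ∉ y.asIdeal → y ∈ E) ∧
      ∀ (L : Type u) [Field L] [Algebra R L] (B : Type u) [Ring B] [Algebra R B] [Algebra L B]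
        [IsScalarTower R L B] (Y : DG L B) (j : A →ₐ[R] B), IsBc X Y j → ∃ hY : SmPr Y,
        ∀ (C : Type (u + 1)) [Category.{u + 1} C] [MonoidalCategory C] [SymmetricCategory C]
        [Preadditive C] [MonoidalPreadditive C] [Linear ℚ C] (H : NCMot L C),
        KimuraFinite (H.U Y hY) ↔ PrimeSpectrum.comap (algebraMap R L) ⊥ ∈ E :=
  ⟨fun k _ => hasModel k, fun _ _ _ _ _ _ hX => exists_locus hX⟩

end Pool.Agent.Results.MP_6e5bed_ag.KimuraLocus
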